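import Pool.Agent.MP_856411_pr.OneWay

namespace Pool.Agent.Results.MP_856411_pr.OneWay

open Pool.Agent.MP_856411_pr Filter MeasureTheory

/-- On a finite connected graph, up to exponent one every edge is crossed infinitely often; up to
one half every edge, and up to one every bridge, is crossed infinitely often in both directions;
above one half no edge other than a bridge is crossed infinitely often in both directions. -/
theorem result (V : Type) [Finite V] [Nontrivial V] [MeasurableSpace V] [DiscreteMeasurableSpace V]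
    (G : SimpleGraph V) (hG : G.Connected) (v : V) (γ : ℝ) (hγ : 0 < γ) :
    (∃ μ, IsWalkLaw G γ v μ) ∧ ∀ μ, IsWalkLaw G γ v μ → ∀ᵐ ω ∂μ, ∀ x y, G.Adj x y →
      (γ ≤ 1 → (∃ᶠ n in atTop, ω n = x ∧ ω (n + 1) = y) ∨
        ∃ᶠ n in atTop, ω n = y ∧ ω (n + 1) = x) ∧
      (γ ≤ 1 / 2 ∨ γ ≤ 1 ∧ G.IsBridge s(x, y) → (∃ᶠ n in atTop, ω n = x ∧ ω (n + 1) = y) ∧
        ∃ᶠ n in atTop, ω n = y ∧ ω (n + 1) = x) ∧
      (1 / 2 < γ ∧ ¬ G.IsBridge s(x, y) → ¬ ((∃ᶠ n in atTop, ω n = x ∧ ω (n + 1) = y) ∧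
        ∃ᶠ n in atTop, ω n = y ∧ ω (n + 1) = x)) :=
  OW.main hG hγ

end Pool.Agent.Results.MP_856411_pr.OneWay
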