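import Pool.Agent.Mg.F856411.Gd5174d

namespace Pool.Agent.Results.MP_856411_pr.Thresholds

open Pool.Agent.MP_856411_pr

/-- The trapping threshold is one half on cycles and one on every other finite connected
non-tree graph and on the lattices of dimension at least two. -/
theorem result :
    (∀ (V : Type) [Finite V] [MeasurableSpace V] [DiscreteMeasurableSpace V]
      (G : SimpleGraph V), G.Connected → ¬ G.IsTree → ∀ v : V,
        ((∀ x, (G.neighborSet x).ncard = 2) → IsThreshold G v (1 / 2)) ∧
        ((¬ ∀ x, (G.neighborSet x).ncard = 2) → IsThreshold G v 1)) ∧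
    ∀ d : ℕ, 2 ≤ d → ∀ v : Fin d → ℤ, IsThreshold (latticeGraph d) v 1 :=
  ⟨fun _ _ _ _ G hG hT v => finite_main G hG hT v, lattice_main⟩

end Pool.Agent.Results.MP_856411_pr.Thresholds
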